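import Pool.Agent.GolS.Main

/-!
# Short Golomb rulers with `k + 2` marks for `k = 2 ^ e - 1`

For every `ε > 0` and every sufficiently large `e`, `k = 2 ^ e - 1`, there is a Golomb ruler with `k + 2` marks
and length at most `k ^ 2 + k - (k + 1) ^ (1 - ε)`.  In particular `G (k + 2) < k ^ 2 + k` for these `k`.
-/

namespace Pool.Agent.Results.MP_1e2239_co.MersenneFamily

/-- For every `ε > 0` there is `e₀` such that for all `e ≥ e₀` and `k = 2 ^ e - 1` there is a set `S` of `k + 2`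
natural numbers, all at most `k ^ 2 + k - (k + 1) ^ (1 - ε)` (so all below `k ^ 2 + k`), whose positive differences
are pairwise distinct. -/
theorem result : ∀ ε : ℝ, 0 < ε → ∃ e₀ : ℕ, ∀ e : ℕ, e₀ ≤ e → ∀ k : ℕ, k + 1 = 2 ^ e →
    ∃ S : Finset ℕ, S.card = k + 2 ∧
      (∀ x ∈ S, (x : ℝ) ≤ (k : ℝ) ^ 2 + k - ((k : ℝ) + 1) ^ (1 - ε)) ∧
      (∀ x ∈ S, x < k ^ 2 + k) ∧
      ∀ a ∈ S, ∀ b ∈ S, ∀ c ∈ S, ∀ d ∈ S, b < a → d < c → a - b = c - d → a = c ∧ b = d := by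
  intro ε hε
  obtain ⟨e₀, he₀⟩ := Pool.Agent.GolS.main (min ε (1 / 2)) (by positivity)
    ((min_le_right _ _).trans_lt (by norm_num))
  refine ⟨e₀, fun e he k hk => ?_⟩
  obtain ⟨S, h1, h2, h3⟩ := he₀ e he k hk
  have hk0 : (0 : ℝ) ≤ k := Nat.cast_nonneg k
  have key : ∀ x ∈ S, (x : ℝ) ≤ (k : ℝ) ^ 2 + k - ((k : ℝ) + 1) ^ (1 - ε) := by
    intro x hx
    have h4 := h2 x hx
    have h5 : ((k : ℝ) + 1) ^ (1 - ε) ≤ ((k : ℝ) + 1) ^ (1 - min ε (1 / 2)) :=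
      Real.rpow_le_rpow_of_exponent_le (by linarith) (by linarith [min_le_left ε (1 / 2)])
    linarith
  refine ⟨S, h1, key, fun x hx => ?_, h3⟩
  have h6 := key x hx
  have h7 : 0 < ((k : ℝ) + 1) ^ (1 - ε) := Real.rpow_pos_of_pos (by linarith) _
  have h8 : (x : ℝ) < (k : ℝ) ^ 2 + k := by linarith
  exact_mod_cast h8

end Pool.Agent.Results.MP_1e2239_co.MersenneFamily
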