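import Pool.Agent.Sgp.Singer

/-!
# Golomb rulers with `k + 2` marks, `k + 1` a prime power

If `k + 1 = q` is a prime power then there is a Golomb ruler with `k + 2` marks and length at most
`k ^ 2 + k + 1`, that is `G (q + 1) ≤ q ^ 2 - q + 1`.
-/

namespace Pool.Agent.Results.MP_1e2239_co.PrimePowerBound

/-- If `k + 1` is a prime power, there is a set `S` of `k + 2` natural numbers, all at most `k ^ 2 + k + 1`, whose
positive differences are pairwise distinct. -/
theorem result : ∀ k : ℕ, IsPrimePow (k + 1) →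
    ∃ S : Finset ℕ, S.card = k + 2 ∧ (∀ x ∈ S, x ≤ k ^ 2 + k + 1) ∧
      ∀ a ∈ S, ∀ b ∈ S, ∀ c ∈ S, ∀ d ∈ S, b < a → d < c → a - b = c - d → a = c ∧ b = d := by
  intro k hk
  obtain ⟨S, h1, h2, h3⟩ := Pool.Agent.Sgp.main (k + 1) hk
  refine ⟨S, h1, fun x hx => ?_, h3⟩
  have := h2 x hx
  have h4 : (k + 1) ^ 2 = k ^ 2 + 2 * k + 1 := by ring
  omega

end Pool.Agent.Results.MP_1e2239_co.PrimePowerBound
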