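import Pool.Agent.Sgq.Main

/-!
# Q1 for `k = r ^ m - 1`, `m ≥ 2`, `r` an odd prime power not `2` modulo `3`, `r ^ m` large
-/

namespace Pool.Agent.Results.MP_1e2239_co.ProperPowers

/-- There is `q₀` such that for every odd prime power `r` with `r % 3 ≠ 2`, every `m ≥ 2` with `r ^ m ≥ q₀` and
`k = r ^ m - 1` there is a set `S` of `k + 2` natural numbers, all less than `k ^ 2 + k`, whose positive differences
are pairwise distinct. -/
theorem result : ∃ q₀ : ℕ, ∀ r m : ℕ, IsPrimePow r → Odd r → r % 3 ≠ 2 → 2 ≤ m → q₀ ≤ r ^ m →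
    ∀ k : ℕ, k + 1 = r ^ m →
    ∃ S : Finset ℕ, S.card = k + 2 ∧ (∀ x ∈ S, x < k ^ 2 + k) ∧
      ∀ a ∈ S, ∀ b ∈ S, ∀ c ∈ S, ∀ d ∈ S, b < a → d < c → a - b = c - d → a = c ∧ b = d := by
  obtain ⟨q₀, h⟩ := Pool.Agent.Sgq.main
  refine ⟨q₀, fun r m hr hodd h3 hm hq k hk => ?_⟩
  obtain ⟨S, h1, h2, h4⟩ := h r m hr hodd h3 hm hq
  rw [← hk] at h1 h2
  refine ⟨S, h1, fun x hx => ?_, h4⟩
  have h5 := h2 x hx
  nlinarith

end Pool.Agent.Results.MP_1e2239_co.ProperPowers
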